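import Mathlib
import Pool.Agent.Lib.MP_2da57a_co.Basic

namespace Pool.Agent.Results.MP_2da57a_co.Atomic

open Pool.Agent.Lib.MP_2da57a_co

universe u v

/-- The poset of completary multifuncoids of the form `(P U)^n` is atomic if and only if `n` is
finite or `U` is finite. -/
theorem result (n : Type u) (U : Type v) :
    (∀ f : CMF n U, f ≠ ⊥ → ∃ a : CMF n U, IsAtom a ∧ a ≤ f) ↔ (Finite n ∨ Finite U) :=
  atomic_iff

end Pool.Agent.Results.MP_2da57a_co.Atomic
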