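import Mathlib
import Pool.Agent.Lib.MP_2da57a_co.Basic

namespace Pool.Agent.Results.MP_2da57a_co.Atomistic

open Pool.Agent.Lib.MP_2da57a_co

universe u v

/-- The poset of completary multifuncoids of the form `(P U)^n` is atomistic if and only if `n`
is finite or `U` is finite. -/
theorem result (n : Type u) (U : Type v) :
    (∀ f : CMF n U, IsLUB {a : CMF n U | IsAtom a ∧ a ≤ f} f) ↔ (Finite n ∨ Finite U) :=
  atomistic_iff

end Pool.Agent.Results.MP_2da57a_co.Atomistic
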